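import Mathlib

set_option autoImplicit false

open Set Filter Topology
open scoped RealInnerProductSpace Gradient

namespace Pool.Agent.Results.MP_7a7a2a_an.NonstationaryLimitOnBox

section defs

variable {V : Type*} [NormedAddCommGroup V] [InnerProductSpace ℝ V] [CompleteSpace V]

/-- The (Bouligand) tangent cone of `X` at `x`. -/
def tangentCone (X : Set V) (x : V) : Set V :=
  {v | ∃ (t : ℕ → ℝ) (w : ℕ → V), (∀ k, 0 < t k) ∧ Tendsto t atTop (𝓝 0) ∧
    Tendsto w atTop (𝓝 v) ∧ ∀ k, x + t k • w k ∈ X}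

/-- `p` is a nearest point of `S` to `w`. -/
def IsProj (S : Set V) (w p : V) : Prop := p ∈ S ∧ ∀ q ∈ S, ‖w - p‖ ≤ ‖w - q‖

/-- Stationarity of `x` for `min_X f`. -/
def Stationary (X : Set V) (f : V → ℝ) (x : V) : Prop :=
  ∀ v ∈ tangentCone X x, 0 ≤ ⟪∇ f x, v⟫

/-- `f` is continuously differentiable on a neighbourhood of `X`. -/
def SmoothNear (X : Set V) (f : V → ℝ) : Prop :=
  ∃ U : Set V, IsOpen U ∧ X ⊆ U ∧ ContDiffOn ℝ 1 f U

/-- `(x, (x_k), f)` is an apocalypse on `X`; the numbers `s_f(x_k)` are the norms of nearest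
points `p_k` of the tangent cone at `x_k` to `-∇f(x_k)`. -/
def IsApocalypse (X : Set V) (x : V) (xs : ℕ → V) (f : V → ℝ) : Prop :=
  SmoothNear X f ∧ x ∈ X ∧ (∀ k, xs k ∈ X) ∧ Tendsto xs atTop (𝓝 x) ∧
  (∃ p : ℕ → V, (∀ k, IsProj (tangentCone X (xs k)) (-∇ f (xs k)) (p k)) ∧
    Tendsto (fun k => ‖p k‖) atTop (𝓝 0)) ∧ ¬ Stationary X f x

/-- `X` is apocalypse-free. -/
def ApocalypseFree (X : Set V) : Prop :=
  ∀ (x : V) (xs : ℕ → V) (f : V → ℝ), ¬ IsApocalypse X x xs f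

/-- A run of P²GD with Armijo backtracking: `p k` is the selected nearest point of the tangent
cone to `-∇f(x_k)`, `trial k j` the selected projection onto `X` of `x_k + a b^j p_k`, `J k` the
first `j` for which the Armijo inequality holds, and `x_{k+1} = trial k (J k)`. -/
def IsRun (X : Set V) (f : V → ℝ) (a b c : ℝ) (x : ℕ → V) (p : ℕ → V) (trial : ℕ → ℕ → V)
    (J : ℕ → ℕ) : Prop :=
  (∀ k, x k ∈ X) ∧ (∀ k, IsProj (tangentCone X (x k)) (-∇ f (x k)) (p k)) ∧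
  (∀ k j, IsProj X (x k + (a * b ^ j) • p k) (trial k j)) ∧
  (∀ k, f (trial k (J k)) ≤ f (x k) - c * (a * b ^ (J k)) * ‖p k‖ ^ 2) ∧
  (∀ k, ∀ j < J k, ¬ f (trial k j) ≤ f (x k) - c * (a * b ^ j) * ‖p k‖ ^ 2) ∧
  (∀ k, x (k + 1) = trial k (J k))

omit [CompleteSpace V] in
lemma inner_le_of_isProj {S : Set V} (hcone : ∀ v ∈ S, ∀ r : ℝ, 0 < r → r • v ∈ S)
    {w p v : V} (hp : IsProj S w p) (hv : v ∈ S) : ⟪w, v⟫ ≤ ‖p‖ * ‖v‖ := by
  rcases eq_or_ne v 0 with rfl | hv0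
  · simp
  by_cases ht : ⟪w, v⟫ ≤ 0
  · exact ht.trans (by positivity)
  push Not at ht
  have hnv : 0 < ‖v‖ := norm_pos_iff.2 hv0
  -- compare with the multiple `r v`, `r = ⟪w,v⟫/‖v‖²`
  set r : ℝ := ⟪w, v⟫ / ‖v‖ ^ 2 with hr
  have hr0 : 0 < r := div_pos ht (by positivity)
  have h1 := hp.2 _ (hcone v hv r hr0)
  have h2 : ‖w - r • v‖ ^ 2 = ‖w‖ ^ 2 - ⟪w, v⟫ ^ 2 / ‖v‖ ^ 2 := by
    rw [norm_sub_sq_real, inner_smul_right, norm_smul, Real.norm_of_nonneg hr0.le, hr]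
    field_simp
    ring
  -- `⟪w,p⟫ = ‖p‖²`
  have h3 : ‖w‖ ^ 2 - ‖p‖ ^ 2 ≤ ‖w - p‖ ^ 2 := by
    have h5 : ⟪w, p⟫ ≤ ‖p‖ ^ 2 := by
      rcases eq_or_ne p 0 with rfl | hp0
      · simp
      by_contra hcon
      push Not at hcon
      have hnp : 0 < ‖p‖ ^ 2 := by
        have := norm_pos_iff.2 hp0; positivity
      set q : ℝ := ⟪w, p⟫ / ‖p‖ ^ 2 with hq
      have hq1 : 1 < q := by rw [hq, one_lt_div hnp]; exact hcon
      have h6 := hp.2 _ (hcone p hp.1 q (by linarith))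
      have h7 : ‖w - q • p‖ ^ 2 = ‖w‖ ^ 2 - 2 * q * ⟪w, p⟫ + q ^ 2 * ‖p‖ ^ 2 := by
        rw [norm_sub_sq_real, inner_smul_right, norm_smul, Real.norm_of_nonneg (by linarith)]
        ring
      have h8 : ‖w - p‖ ^ 2 = ‖w‖ ^ 2 - 2 * ⟪w, p⟫ + ‖p‖ ^ 2 := norm_sub_sq_real w p
      have h9 : ‖w - p‖ ^ 2 ≤ ‖w - q • p‖ ^ 2 := by gcongr
      have h10 : ⟪w, p⟫ = q * ‖p‖ ^ 2 := by rw [hq]; field_simp
      rw [h7, h8, h10] at h9
      have h11 : 0 < (q - 1) ^ 2 * ‖p‖ ^ 2 := by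
        have : 0 < q - 1 := by linarith
        positivity
      nlinarith
    have h8 : ‖w - p‖ ^ 2 = ‖w‖ ^ 2 - 2 * ⟪w, p⟫ + ‖p‖ ^ 2 := norm_sub_sq_real w p
    linarith
  have h4 : ‖w - p‖ ^ 2 ≤ ‖w - r • v‖ ^ 2 := by gcongr
  have h5 : ⟪w, v⟫ ^ 2 / ‖v‖ ^ 2 ≤ ‖p‖ ^ 2 := by linarith
  have h6 : ⟪w, v⟫ ^ 2 ≤ (‖p‖ * ‖v‖) ^ 2 := by
    rw [div_le_iff₀ (by positivity)] at h5
    rw [mul_pow]; exact h5
  exact le_of_sq_le_sq h6 (by positivity)

omit [CompleteSpace V] in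
lemma cone_smul {X : Set V} {x v : V} (hv : v ∈ tangentCone X x) {r : ℝ} (hr : 0 < r) :
    r • v ∈ tangentCone X x := by
  obtain ⟨t, w, ht, ht0, hw, hX⟩ := hv
  refine ⟨fun k => t k / r, fun k => r • w k, fun k => div_pos (ht k) hr, ?_, hw.const_smul r, ?_⟩
  · simpa using ht0.div_const r
  · intro k
    rw [smul_smul, div_mul_cancel₀ _ hr.ne']
    exact hX k

omit [CompleteSpace V] in
lemma sub_mem_cone {X : Set V} (hX : Convex ℝ X) {x z : V} (hx : x ∈ X) (hz : z ∈ X) :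
    z - x ∈ tangentCone X x := by
  refine ⟨fun k => 1 / ((k : ℝ) + 1), fun _ => z - x, fun k => by positivity,
    tendsto_one_div_add_atTop_nhds_zero_nat, tendsto_const_nhds, fun k => ?_⟩
  have h1 : (0:ℝ) < 1 / ((k : ℝ) + 1) := by positivity
  have h2 : 1 / ((k : ℝ) + 1) ≤ 1 := by
    rw [div_le_one (by positivity)]
    have : (0:ℝ) ≤ k := Nat.cast_nonneg k
    linarith
  have := hX hx hz (sub_nonneg.2 h2) h1.le (by ring)
  convert this using 1
  rw [smul_sub, sub_smul, one_smul]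
  abel

/-- Closed convex sets are apocalypse-free. -/
lemma convex_apocalypseFree {X : Set V} (hX : Convex ℝ X) : ApocalypseFree X := by
  rintro x xs f ⟨⟨U, hU, hXU, hf⟩, hx, hxs, hlim, ⟨p, hp, hp0⟩, hns⟩
  apply hns
  have hgc : ContinuousAt (fun y => ∇ f y) x := by
    have h1 : ContinuousOn (fderiv ℝ f) U := hf.continuousOn_fderiv_of_isOpen hU le_rfl
    have h2 : ContinuousAt (fderiv ℝ f) x := h1.continuousAt (hU.mem_nhds (hXU hx))
    exact ((InnerProductSpace.toDual ℝ V).symm.continuous.continuousAt).comp h2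
  have key : ∀ z ∈ X, ⟪-∇ f x, z - x⟫ ≤ 0 := by
    intro z hz
    have h1 : ∀ k, ⟪-∇ f (xs k), z - xs k⟫ ≤ ‖p k‖ * ‖z - xs k‖ := fun k =>
      inner_le_of_isProj (fun v hv r hr => cone_smul hv hr) (hp k) (sub_mem_cone hX (hxs k) hz)
    have h2 : Tendsto (fun k => ⟪-∇ f (xs k), z - xs k⟫) atTop (𝓝 ⟪-∇ f x, z - x⟫) :=
      ((hgc.tendsto.comp hlim).neg).inner (tendsto_const_nhds.sub hlim)
    have h3 : Tendsto (fun k => ‖p k‖ * ‖z - xs k‖) atTop (𝓝 (0 * ‖z - x‖)) :=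
      hp0.mul (tendsto_const_nhds.sub hlim).norm
    rw [zero_mul] at h3
    exact le_of_tendsto_of_tendsto' h2 h3 h1
  rintro v ⟨t, w, ht, ht0, hw, hX'⟩
  have h1 : ∀ k, 0 ≤ ⟪∇ f x, w k⟫ := by
    intro k
    have := key _ (hX' k)
    rw [add_sub_cancel_left, inner_neg_left, inner_smul_right] at this
    have h2 : 0 ≤ t k * ⟪∇ f x, w k⟫ := by linarith
    exact nonneg_of_mul_nonneg_right h2 (ht k)
  exact ge_of_tendsto' (tendsto_const_nhds.inner hw) h1

end defs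

/-! ### The example -/

abbrev E2 := EuclideanSpace ℝ (Fin 2)

/-- the box `[0,1] × [-2,0]` -/
def box : Set E2 := {q | (0 ≤ q 0 ∧ q 0 ≤ 1) ∧ (-2 ≤ q 1 ∧ q 1 ≤ 0)}

noncomputable def pt (u v : ℝ) : E2 := WithLp.toLp 2 ![u, v]

@[simp] lemma pt0 (u v : ℝ) : pt u v 0 = u := rfl
@[simp] lemma pt1 (u v : ℝ) : pt u v 1 = v := rfl

/-- `f(x,y) = -x/8 - y` -/
noncomputable def ff (q : E2) : ℝ := -(q 0) / 8 - q 1

lemma inner2 (a b : E2) : ⟪a, b⟫ = a 0 * b 0 + a 1 * b 1 := by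
  rw [PiLp.inner_apply, Fin.sum_univ_two]
  simp [mul_comm]

lemma normsq2 (a : E2) : ‖a‖ ^ 2 = a 0 ^ 2 + a 1 ^ 2 := by
  rw [← real_inner_self_eq_norm_sq, inner2]; ring

lemma gradf (q : E2) : HasGradientAt ff (pt (-1/8) (-1)) q := by
  rw [hasGradientAt_iff_hasFDerivAt]
  have h0 : HasFDerivAt (fun z : E2 => z 0)
      (EuclideanSpace.proj (𝕜 := ℝ) (0 : Fin 2) : E2 →L[ℝ] ℝ) q :=
    (EuclideanSpace.proj (𝕜 := ℝ) (0 : Fin 2) : E2 →L[ℝ] ℝ).hasFDerivAt
  have h1 : HasFDerivAt (fun z : E2 => z 1)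
      (EuclideanSpace.proj (𝕜 := ℝ) (1 : Fin 2) : E2 →L[ℝ] ℝ) q :=
    (EuclideanSpace.proj (𝕜 := ℝ) (1 : Fin 2) : E2 →L[ℝ] ℝ).hasFDerivAt
  have h2 := (h0.const_mul (-1/8 : ℝ)).sub h1
  have e : ff = fun z : E2 => (-1/8 : ℝ) * z 0 - z 1 := by
    funext z; unfold ff; ring
  rw [e]
  refine h2.congr_fderiv ?_
  ext v
  rw [InnerProductSpace.toDual_apply_apply, inner2]
  simp
  ring

lemma grad_eq (q : E2) : ∇ ff q = pt (-1/8) (-1) := (gradf q).gradient

lemma convex_box : Convex ℝ box := by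
  intro x hx y hy a b ha hb hab
  obtain ⟨⟨x1, x2⟩, x3, x4⟩ := hx
  obtain ⟨⟨y1, y2⟩, y3, y4⟩ := hy
  have e : ∀ i : Fin 2, (a • x + b • y) i = a * x i + b * y i := by intro i; simp
  refine ⟨?_, ?_⟩
  · rw [e]
    constructor
    · nlinarith [mul_nonneg ha x1, mul_nonneg hb y1]
    · nlinarith [mul_nonneg ha (sub_nonneg.2 x2), mul_nonneg hb (sub_nonneg.2 y2)]
  · rw [e]
    constructor
    · nlinarith [mul_nonneg ha (by linarith : 0 ≤ x 1 + 2), mul_nonneg hb (by linarith : 0 ≤ y 1 + 2)]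
    · nlinarith [mul_nonneg ha (by linarith : 0 ≤ -x 1), mul_nonneg hb (by linarith : 0 ≤ -y 1)]

lemma isClosed_box : IsClosed box := by
  have h0 : Continuous (fun q : E2 => q 0) := by fun_prop
  have h1 : Continuous (fun q : E2 => q 1) := by fun_prop
  exact ((isClosed_le continuous_const h0).inter (isClosed_le h0 continuous_const)).inter
    ((isClosed_le continuous_const h1).inter (isClosed_le h1 continuous_const))

lemma isBounded_box : Bornology.IsBounded box := by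
  rw [isBounded_iff_forall_norm_le]
  refine ⟨3, ?_⟩
  rintro x ⟨⟨x1, x2⟩, x3, x4⟩
  have : ‖x‖ ^ 2 ≤ 3 ^ 2 := by rw [normsq2]; nlinarith
  exact le_of_sq_le_sq this (by norm_num)

lemma cone_interior {u v : ℝ} (hu0 : 0 < u) (hu1 : u < 1) (hv0 : -2 < v) (hv1 : v < 0) (w : E2) :
    w ∈ tangentCone box (pt u v) := by
  -- small multiples of `w` stay inside
  set M : ℝ := |w 0| + |w 1| + 1 with hM
  have hM0 : 0 < M := by positivity
  set δ : ℝ := min (min u (1 - u)) (min (v + 2) (-v)) with hδ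
  have hδ0 : 0 < δ := by
    simp only [hδ, lt_min_iff]; refine ⟨⟨hu0, by linarith⟩, by linarith, by linarith⟩
  refine ⟨fun k => δ / M / ((k : ℝ) + 1), fun _ => w, fun k => by positivity, ?_,
    tendsto_const_nhds, fun k => ?_⟩
  · have := (tendsto_one_div_add_atTop_nhds_zero_nat (𝕜 := ℝ)).const_mul (δ / M)
    simpa [div_eq_mul_inv] using this
  · set t : ℝ := δ / M / ((k : ℝ) + 1) with ht
    have ht0 : 0 < t := by positivity
    have htM : t * M ≤ δ := by
      rw [ht, div_div, div_mul_eq_mul_div, div_le_iff₀ (by positivity)]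
      have : (0:ℝ) ≤ k := Nat.cast_nonneg k
      nlinarith [mul_pos hδ0 hM0, mul_nonneg (mul_pos hδ0 hM0).le this]
    have h0 : |t * w 0| ≤ δ := by
      rw [abs_mul, abs_of_pos ht0]
      have : |w 0| ≤ M := by rw [hM]; linarith [abs_nonneg (w 1)]
      nlinarith
    have h1 : |t * w 1| ≤ δ := by
      rw [abs_mul, abs_of_pos ht0]
      have : |w 1| ≤ M := by rw [hM]; linarith [abs_nonneg (w 0)]
      nlinarith
    have d1 : δ ≤ u := (min_le_left _ _).trans (min_le_left _ _)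
    have d2 : δ ≤ 1 - u := (min_le_left _ _).trans (min_le_right _ _)
    have d3 : δ ≤ v + 2 := (min_le_right _ _).trans (min_le_left _ _)
    have d4 : δ ≤ -v := (min_le_right _ _).trans (min_le_right _ _)
    rw [abs_le] at h0 h1
    have e0 : (pt u v + t • w) 0 = u + t * w 0 := by simp
    have e1 : (pt u v + t • w) 1 = v + t * w 1 := by simp
    refine ⟨?_, ?_⟩
    · rw [e0]; constructor <;> linarith
    · rw [e1]; constructor <;> linarith

/-- first coordinates of the iterates -/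
noncomputable def aa (k : ℕ) : ℝ := 1/4 + 1/7 * (1 - (1/8) ^ k)

/-- minus the second coordinates -/
noncomputable def dd (k : ℕ) : ℝ := 8/7 * (1/8) ^ k

lemma pow8 (k : ℕ) : (0:ℝ) < (1/8) ^ k ∧ ((1:ℝ)/8) ^ k ≤ 1 :=
  ⟨by positivity, pow_le_one₀ (by norm_num) (by norm_num)⟩

lemma half_pow (k : ℕ) : ((1:ℝ)/2) ^ (3 * k) = (1/8) ^ k := by
  rw [pow_mul]; norm_num

/-- the projection of the trial points -/
lemma proj_trial {u v : ℝ} (hu0 : 0 ≤ u) (hu1 : u ≤ 1) (hv0 : -2 ≤ v) :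
    IsProj box (pt u v) (pt u (min v 0)) := by
  refine ⟨⟨⟨hu0, hu1⟩, le_min hv0 (by norm_num), min_le_right _ _⟩, ?_⟩
  rintro q ⟨⟨_, _⟩, _, q4⟩
  have h : ‖pt u v - pt u (min v 0)‖ ^ 2 ≤ ‖pt u v - q‖ ^ 2 := by
    rw [normsq2, normsq2]
    simp only [PiLp.sub_apply, pt0, pt1]
    rcases le_total v 0 with h | h
    · rw [min_eq_left h]; nlinarith [sq_nonneg (u - q 0), sq_nonneg (v - q 1)]
    · rw [min_eq_right h]; nlinarith [sq_nonneg (u - q 0)]
  exact le_of_sq_le_sq h (norm_nonneg _)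

/-- There are a closed apocalypse-free set (a box in the plane), an affine function and
parameters for which P²GD with Armijo backtracking terminates the backtracking at every iteration
and converges to a non-stationary point. -/
theorem result : ∃ (X : Set E2) (f : E2 → ℝ) (a b c : ℝ) (x : ℕ → E2) (p : ℕ → E2)
    (trial : ℕ → ℕ → E2) (J : ℕ → ℕ) (xbar : E2),
    X.Nonempty ∧ IsClosed X ∧ ApocalypseFree X ∧
    (∃ U : Set E2, IsOpen U ∧ X ⊆ U ∧ ContDiffOn ℝ 1 f U ∧ LocallyLipschitzOn U (∇ f)) ∧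
    Bornology.IsBounded {y | y ∈ X ∧ f y ≤ f (x 0)} ∧
    0 < a ∧ (0 < b ∧ b < 1) ∧ (0 < c ∧ c < 1) ∧ IsRun X f a b c x p trial J ∧
    Tendsto x atTop (𝓝 xbar) ∧ xbar ∈ X ∧ ¬ Stationary X f xbar := by
  refine ⟨box, ff, 1, 1/2, 9/10, fun k => pt (aa k) (-dd k), fun _ => pt (1/8) 1,
    fun k j => pt (aa k + 1/8 * (1/2) ^ j) (min (-dd k + (1/2) ^ j) 0), fun k => 3 * k,
    pt (1/4 + 1/7) 0, ⟨pt 0 0, by constructor <;> norm_num⟩, isClosed_box,
    convex_apocalypseFree convex_box, ⟨univ, isOpen_univ, subset_univ _, ?_, ?_⟩,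
    isBounded_box.subset (fun y hy => hy.1), by norm_num, by norm_num, by norm_num, ?_, ?_, ?_, ?_⟩
  · have : ContDiff ℝ 1 ff := by unfold ff; fun_prop
    exact this.contDiffOn
  · have : ∇ ff = fun _ => pt (-1/8) (-1) := by funext q; exact grad_eq q
    rw [this]
    exact (LocallyLipschitz.const _).locallyLipschitzOn
  · have hbd : ∀ k, 0 < aa k ∧ aa k ≤ 1/4 + 1/7 ∧ 0 < dd k ∧ dd k ≤ 8/7 := by
      intro k
      obtain ⟨h1, h2⟩ := pow8 k
      unfold aa dd
      refine ⟨?_, ?_, ?_, ?_⟩ <;> linarith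
    have hgrad : ∀ q : E2, -∇ ff q = pt (1/8) 1 := by
      intro q
      rw [grad_eq]
      ext i
      fin_cases i
      · show -(-1/8 : ℝ) = 1/8
        norm_num
      · show -(-1 : ℝ) = 1
        norm_num
    have hn : ‖pt (1/8) 1‖ ^ 2 = 65/64 := by rw [normsq2]; norm_num
    refine ⟨?_, ?_, ?_, ?_, ?_, ?_⟩
    · intro k
      obtain ⟨h1, h2, h3, h4⟩ := hbd k
      refine ⟨⟨?_, ?_⟩, ?_, ?_⟩ <;> simp only [pt0, pt1] <;> linarith
    · intro k
      obtain ⟨h1, h2, h3, h4⟩ := hbd k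
      rw [hgrad]
      refine ⟨cone_interior h1 (by linarith) (by linarith) (by linarith) _, fun q _ => ?_⟩
      rw [sub_self, norm_zero]; exact norm_nonneg _
    · intro k j
      obtain ⟨h1, h2, h3, h4⟩ := hbd k
      have hj0 : (0:ℝ) < (1/2) ^ j := by positivity
      have hj1 : ((1:ℝ)/2) ^ j ≤ 1 := pow_le_one₀ (by norm_num) (by norm_num)
      have e : pt (aa k) (-dd k) + ((1:ℝ) * (1/2) ^ j) • pt (1/8) 1 =
          pt (aa k + 1/8 * (1/2) ^ j) (-dd k + (1/2) ^ j) := by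
        ext i
        fin_cases i
        · show aa k + (1 * (1/2) ^ j) * (1/8) = aa k + 1/8 * (1/2) ^ j
          ring
        · show -dd k + (1 * (1/2) ^ j) * 1 = -dd k + (1/2) ^ j
          ring
      rw [e]
      exact proj_trial (by linarith) (by linarith) (by linarith)
    · intro k
      rw [hn]
      obtain ⟨h1, h2⟩ := pow8 k
      simp only [ff, pt0, pt1, half_pow]
      have e : min (-dd k + (1/8) ^ k) 0 = -dd k + (1/8) ^ k := by
        apply min_eq_left; unfold dd; linarith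
      rw [e]
      linarith
    · intro k j hj hcon
      rw [hn] at hcon
      simp only [ff, pt0, pt1] at hcon
      have hpow : 2 * (1/8 : ℝ) ^ k ≤ (1/2) ^ j := by
        rw [← half_pow]
        have h1 : j + 1 ≤ 3 * k := hj
        have h2 : ((1:ℝ)/2) ^ (3 * k) ≤ (1/2) ^ (j + 1) :=
          pow_le_pow_of_le_one (by norm_num) (by norm_num) h1
        rw [pow_succ] at h2
        linarith
      obtain ⟨h1, h2⟩ := pow8 k
      have e : min (-dd k + (1/2) ^ j) 0 = 0 := by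
        apply min_eq_right; unfold dd; linarith
      rw [e] at hcon
      unfold dd at hcon
      linarith
    · intro k
      simp only [half_pow]
      have e : min (-dd k + (1/8) ^ k) 0 = -dd k + (1/8) ^ k := by
        obtain ⟨h1, h2⟩ := pow8 k
        apply min_eq_left; unfold dd; linarith
      rw [e]
      congr 1
      · unfold aa; rw [pow_succ]; ring
      · unfold dd; rw [pow_succ]; ring
  · have hp : Tendsto (fun k : ℕ => ((1:ℝ)/8) ^ k) atTop (𝓝 0) :=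
      tendsto_pow_atTop_nhds_zero_of_lt_one (by norm_num) (by norm_num)
    have hA : Tendsto aa atTop (𝓝 (1/4 + 1/7)) := by
      have := ((tendsto_const_nhds (x := (1:ℝ))).sub hp).const_mul (1/7)
      have := this.const_add (1/4)
      rw [sub_zero, mul_one] at this
      exact this
    have hD : Tendsto (fun k => -dd k) atTop (𝓝 0) := by
      have := (hp.const_mul (8/7)).neg
      simpa [dd] using this
    have hc : Continuous (fun z : ℝ × ℝ => pt z.1 z.2) := by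
      have h1 : Continuous (fun z : Fin 2 → ℝ => (WithLp.toLp 2 z : E2)) :=
        (PiLp.continuousLinearEquiv 2 ℝ (fun _ : Fin 2 => ℝ)).symm.continuous
      apply h1.comp
      apply continuous_pi
      intro i
      fin_cases i
      · exact continuous_fst
      · exact continuous_snd
    exact (hc.tendsto (1/4 + 1/7, 0)).comp (hA.prodMk_nhds hD)
  · constructor <;> norm_num
  · intro hst
    have hv : pt 1 0 ∈ tangentCone box (pt (1/4 + 1/7) 0) := by
      have := sub_mem_cone convex_box (x := pt (1/4 + 1/7) 0) (z := pt (1/4 + 1/7 + 1/2) 0)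
        (by constructor <;> norm_num) (by constructor <;> norm_num)
      have h2 := cone_smul this (r := 2) (by norm_num)
      convert h2 using 1
      ext i
      fin_cases i
      · show (1:ℝ) = 2 * ((1/4 + 1/7 + 1/2) - (1/4 + 1/7))
        norm_num
      · show (0:ℝ) = 2 * (0 - 0)
        norm_num
    have h := hst _ hv
    rw [grad_eq, inner2] at h
    simp at h
    linarith

end Pool.Agent.Results.MP_7a7a2a_an.NonstationaryLimitOnBox
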